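import Mathlib
import Pool.Agent.Helper52.Wqo.Main
import Pool.Agent.Helper52.Wqo.Uni

set_option autoImplicit false

universe u v

namespace Pool.Agent.Results.MP_266b34_co.InfiniteGenerators

open Pool.Agent.Helper52.Wqo

/-- `IsMinor H G`: `H` is a minor of `G` (pairwise disjoint nonempty connected branch sets `φ v`,
one for each vertex `v` of `H`, and an edge of `G` between `φ v` and `φ w` for every edge `v w`
of `H`; branch sets may be infinite). -/
def IsMinor {V W : Type*} (H : SimpleGraph V) (G : SimpleGraph W) : Prop :=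
  ∃ φ : V → Set W, (∀ v, (G.induce (φ v)).Connected) ∧
    (∀ v w, v ≠ w → Disjoint (φ v) (φ w)) ∧
    (∀ v w, H.Adj v w → ∃ a ∈ φ v, ∃ b ∈ φ w, G.Adj a b)

/-- `S` is an admissible generating set: it generates the group, is symmetric and does not
contain `1`. -/
def IsGen {Γ : Type*} [Group Γ] (S : Set Γ) : Prop :=
  Subgroup.closure S = ⊤ ∧ (∀ s ∈ S, s⁻¹ ∈ S) ∧ (1 : Γ) ∉ S

/-- The Cayley graph: `g` and `h` are adjacent iff `g ≠ h` and `g⁻¹ h ∈ S` or `h⁻¹ g ∈ S`
(for a symmetric `S` with `1 ∉ S` this says exactly `g⁻¹ h ∈ S`). -/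
def cay {Γ : Type*} [Group Γ] (S : Set Γ) : SimpleGraph Γ :=
  SimpleGraph.fromRel (fun a b : Γ => a⁻¹ * b ∈ S)

/-- The group has no free subgroup of rank two. -/
def NoFree (Γ : Type*) [Group Γ] : Prop :=
  ∀ f : FreeGroup (Fin 2) →* Γ, ¬ Function.Injective f

/-- The group has at most one end: every subset that is almost invariant under right
multiplication is finite or cofinite. -/
def AtMostOneEnd (Γ : Type*) [Group Γ] : Prop :=
  ∀ U : Set Γ, (∀ g : Γ, {x | x ∈ U ∧ x * g ∉ U}.Finite) → U.Finite ∨ Uᶜ.Finite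

/-- A group `Γ` with a subset `S` is tame if `Γ` has an infinite normal subgroup without free
subgroups of rank two, or an infinite normal subgroup with infinite centralizer, or at most one
end, or if `S` is invariant under conjugation. -/
def Tame {Γ : Type*} [Group Γ] (S : Set Γ) : Prop :=
  (∃ N : Subgroup Γ, N.Normal ∧ Infinite N ∧
    (NoFree N ∨ Infinite (Subgroup.centralizer (N : Set Γ)))) ∨
  AtMostOneEnd Γ ∨ ∀ g : Γ, ∀ s ∈ S, g * s * g⁻¹ ∈ S

theorem connected_of_preC {Γ : Type*} [Group Γ] {S A : Set Γ} (h1 : (1 : Γ) ∉ S)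
    (hne : A.Nonempty) (h : PreC S A) : ((cay S).induce A).Connected := by
  rw [SimpleGraph.connected_iff]
  refine ⟨?_, hne.to_subtype⟩
  rintro ⟨a, ha⟩ ⟨b, hb⟩
  have key : ∀ c, Relation.ReflTransGen (fun x y => x⁻¹ * y ∈ S ∧ y ∈ A) a c →
      ∃ hc : c ∈ A, ((cay S).induce A).Reachable ⟨a, ha⟩ ⟨c, hc⟩ := by
    intro c hc
    induction hc with
    | refl => exact ⟨ha, SimpleGraph.Reachable.refl _⟩
    | tail _ hbc ih =>
      rename_i x y _
      obtain ⟨hx, hr⟩ := ih
      refine ⟨hbc.2, hr.trans (SimpleGraph.Adj.reachable ?_)⟩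
      show (cay S).Adj x y
      unfold cay
      rw [SimpleGraph.fromRel_adj]
      refine ⟨?_, Or.inl hbc.1⟩
      rintro rfl
      apply h1
      have := hbc.1
      rwa [inv_mul_cancel] at this
  obtain ⟨_, hr⟩ := key b (h a ha b hb)
  exact hr

theorem gen_of {Γ : Type*} [Group Γ] {S : Set Γ} (hS : IsGen S) : Gen S := ⟨hS.1, hS.2.1⟩

/-- Tame pairs have no finite separators. -/
theorem conn_of_tame {Γ : Type*} [Group Γ] {S : Set Γ} (hS : Gen S) (hinf : S.Infinite)
    (ht : Tame S) : ∀ F : Set Γ, F.Finite → ∀ a b, a ∉ F → b ∉ F → b ∈ cmp S F a := by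
  intro F hF a b ha hb
  rcases ht with ⟨N, hN, hNi, hyp⟩ | hends | hconj
  · refine conn_normal hS hinf hF ha hb N hN (Set.infinite_coe_iff.1 hNi) ?_
    rcases hyp with hfree | hcent
    · left
      intro g hg h hh hinj
      refine hfree (FreeGroup.lift (![⟨g, hg⟩, ⟨h, hh⟩] : Fin 2 → N)) ?_
      intro x y hxy
      apply hinj
      have hcomp : (FreeGroup.lift (![g, h] : Fin 2 → Γ)) =
          N.subtype.comp (FreeGroup.lift (![⟨g, hg⟩, ⟨h, hh⟩] : Fin 2 → N)) := by
        ext i
        fin_cases i <;> simp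
      rw [hcomp, MonoidHom.comp_apply, MonoidHom.comp_apply, hxy]
    · right
      exact Set.infinite_coe_iff.1 hcent
  · exact conn_ends hS hinf hF hends ha hb
  · exact conn_conj hS hinf hF hconj ha hb

theorem minor_of_sub {Γ : Type u} [Group Γ] {S : Set Γ} (hS : IsGen S) {T : Set Γ}
    (hTS : T ⊆ S) (hTi : T.Infinite) (hTs : ∀ t ∈ T, t⁻¹ ∈ T)
    (hconn : ∀ F : Set (Subgroup.closure T), F.Finite → ∀ a b, a ∉ F → b ∉ F →
      b ∈ cmp {x : Subgroup.closure T | (x : Γ) ∈ T} F a)
    (V : Type v) [Countable V] (H : SimpleGraph V) : IsMinor H (cay S) := by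
  classical
  set T' : Set (Subgroup.closure T) := {x : Subgroup.closure T | (x : Γ) ∈ T} with hT'
  have hgen : Gen T' := by
    refine ⟨?_, ?_⟩
    · exact Subgroup.closure_closure_coe_preimage
    · intro s hs
      exact hTs _ hs
  have hinf : T'.Infinite := by
    intro hfin
    apply hTi
    refine (hfin.image (fun x : Subgroup.closure T => (x : Γ))).subset ?_
    intro t ht
    exact ⟨⟨t, Subgroup.subset_closure ht⟩, ht, rfl⟩
  obtain ⟨B, h1, h2, h3, h4⟩ := complete_minor hgen hinf hconn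
  obtain ⟨e, he⟩ := exists_injective_nat V
  refine ⟨fun v => (fun x : Subgroup.closure T => (x : Γ)) '' (B (e v)), ?_, ?_, ?_⟩
  · intro v
    refine connected_of_preC hS.2.2 ((h1 (e v)).image _) ?_
    rintro _ ⟨a, ha, rfl⟩ _ ⟨b, hb, rfl⟩
    refine Relation.ReflTransGen.lift (fun x : Subgroup.closure T => (x : Γ)) ?_ _ _
      (h2 (e v) a ha b hb)
    rintro x y ⟨hxy, hy⟩
    exact ⟨hTS hxy, y, hy, rfl⟩
  · intro v w hvw
    rw [Set.disjoint_left]
    rintro _ ⟨a, ha, rfl⟩ ⟨b, hb, hab⟩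
    have hba : b = a := Subtype.ext hab
    subst hba
    exact hvw (he (h3 _ _ _ ha hb))
  · intro v w hvw
    have hne : e v ≠ e w := fun h => hvw.ne (he h)
    obtain ⟨a, ha, b, hb, hab⟩ := h4 _ _ hne
    refine ⟨a, ⟨a, ha, rfl⟩, b, ⟨b, hb, rfl⟩, ?_⟩
    have habS : (a : Γ)⁻¹ * (b : Γ) ∈ S := hTS hab
    unfold cay
    rw [SimpleGraph.fromRel_adj]
    refine ⟨?_, Or.inl habS⟩
    intro h
    apply hS.2.2
    rwa [h, inv_mul_cancel] at habS

theorem minor_of_conn {Γ : Type u} [Group Γ] {S : Set Γ} (hS : IsGen S) (hinf : S.Infinite)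
    (hconn : ∀ F : Set Γ, F.Finite → ∀ a b, a ∉ F → b ∉ F → b ∈ cmp S F a)
    (V : Type v) [Countable V] (H : SimpleGraph V) : IsMinor H (cay S) := by
  classical
  obtain ⟨B, h1, h2, h3, h4⟩ := complete_minor (gen_of hS) hinf hconn
  obtain ⟨e, he⟩ := exists_injective_nat V
  refine ⟨fun v => B (e v), fun v => connected_of_preC hS.2.2 (h1 _) (h2 _), ?_, ?_⟩
  · intro v w hvw
    rw [Set.disjoint_left]
    intro a ha hb
    exact hvw (he (h3 _ _ _ ha hb))
  · intro v w hvw
    have hne : e v ≠ e w := fun h => hvw.ne (he h)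
    obtain ⟨a, ha, b, hb, hab⟩ := h4 _ _ hne
    refine ⟨a, ha, b, hb, ?_⟩
    unfold cay
    rw [SimpleGraph.fromRel_adj]
    refine ⟨?_, Or.inl hab⟩
    intro h
    apply hS.2.2
    rwa [h, inv_mul_cancel] at hab

theorem noFree_of_le {Γ : Type*} [Group Γ] {K L : Subgroup Γ} (h : L ≤ K) (hK : NoFree K) :
    NoFree L := by
  intro f hf
  exact hK ((Subgroup.inclusion h).comp f) ((Subgroup.inclusion_injective h).comp hf)

theorem part2 {Γ : Type u} [Group Γ] {S : Set Γ} (hS : IsGen S) {T : Set Γ}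
    (hTS : T ⊆ S) (hTi : T.Infinite) (hTs : ∀ t ∈ T, t⁻¹ ∈ T)
    (ht : Tame {x : Subgroup.closure T | (x : Γ) ∈ T})
    (V : Type v) [Countable V] (H : SimpleGraph V) : IsMinor H (cay S) := by
  refine minor_of_sub hS hTS hTi hTs (conn_of_tame ⟨Subgroup.closure_closure_coe_preimage,
    fun s hs => hTs _ hs⟩ ?_ ht) V H
  intro hfin
  apply hTi
  refine (hfin.image (fun x : Subgroup.closure T => (x : Γ))).subset ?_
  intro t ht
  exact ⟨⟨t, Subgroup.subset_closure ht⟩, ht, rfl⟩

theorem part3 {Γ : Type u} [Group Γ] {S : Set Γ} (hS : IsGen S) (K : Subgroup Γ)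
    (hK : NoFree K) (hi : (S ∩ K).Infinite) (V : Type v) [Countable V] (H : SimpleGraph V) :
    IsMinor H (cay S) := by
  have hle : Subgroup.closure (S ∩ (K : Set Γ)) ≤ K :=
    (Subgroup.closure_le K).2 Set.inter_subset_right
  refine part2 hS (T := S ∩ K) Set.inter_subset_left hi
    (fun t ht => ⟨hS.2.1 t ht.1, K.inv_mem ht.2⟩) (Or.inl ⟨⊤, inferInstance, ?_, Or.inl ?_⟩) V H
  · have h1 : Infinite (Subgroup.closure (S ∩ (K : Set Γ))) := by
      rw [← Set.infinite_coe_iff] at hi
      exact Infinite.of_injective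
        (fun x : (S ∩ (K : Set Γ) : Set Γ) =>
          (⟨x.1, Subgroup.subset_closure x.2⟩ : Subgroup.closure (S ∩ (K : Set Γ))))
        (fun x y h => Subtype.ext
          (congrArg (fun z : Subgroup.closure (S ∩ (K : Set Γ)) => (z : Γ)) h))
    exact Infinite.of_injective
      (fun x : Subgroup.closure (S ∩ (K : Set Γ)) => (⟨x, trivial⟩ : (⊤ : Subgroup _)))
      (fun x y h => congrArg Subtype.val h)
  · intro f hf
    exact noFree_of_le hle hK ((Subgroup.subtype _).comp f)
      (Subtype.val_injective.comp hf)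

/-- **Cayley graphs with infinite generating sets.**
(1) If `S` is infinite and `(Γ, S)` is tame, then every countable graph is a minor of the Cayley
graph of `(Γ, S)`.
(2) More generally the same holds if some infinite symmetric subset `T` of `S` is tame in the
subgroup it generates.
(3) In particular it holds if infinitely many elements of `S` lie in a subgroup `K` without free
subgroups of rank two.
(4) So if a sequence of countable Cayley graphs has no `i < j` with the `i`-th graph a minor of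
the `j`-th, then no graph of the sequence, except possibly the first one, is as in (1)-(3). -/
theorem result :
    (∀ (Γ : Type u) [Group Γ] (S : Set Γ), IsGen S → S.Infinite → Tame S →
      ∀ (V : Type v) [Countable V] (H : SimpleGraph V), IsMinor H (cay S)) ∧
    (∀ (Γ : Type u) [Group Γ] (S : Set Γ), IsGen S → ∀ T ⊆ S, T.Infinite → (∀ t ∈ T, t⁻¹ ∈ T) →
      Tame {x : Subgroup.closure T | (x : Γ) ∈ T} →
      ∀ (V : Type v) [Countable V] (H : SimpleGraph V), IsMinor H (cay S)) ∧
    (∀ (Γ : Type u) [Group Γ] (S : Set Γ), IsGen S → ∀ K : Subgroup Γ, NoFree K →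
      (S ∩ K).Infinite →
      ∀ (V : Type v) [Countable V] (H : SimpleGraph V), IsMinor H (cay S)) ∧
    (∀ (Γ : ℕ → Type u) [∀ i, Group (Γ i)] [∀ i, Countable (Γ i)] (S : ∀ i, Set (Γ i)),
      (∀ i, IsGen (S i)) → (∀ i j, i < j → ¬ IsMinor (cay (S i)) (cay (S j))) →
      ∀ j, 1 ≤ j → (¬ ((S j).Infinite ∧ Tame (S j))) ∧
        (∀ T ⊆ S j, T.Infinite → (∀ t ∈ T, t⁻¹ ∈ T) →
          ¬ Tame {x : Subgroup.closure T | (x : Γ j) ∈ T}) ∧
        (∀ K : Subgroup (Γ j), NoFree K → (S j ∩ K).Finite)) := by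
  refine ⟨?_, ?_, ?_, ?_⟩
  · intro Γ _ S hS hinf ht V _ H
    exact minor_of_conn hS hinf (conn_of_tame (gen_of hS) hinf ht) V H
  · intro Γ _ S hS T hTS hTi hTs ht V _ H
    exact part2 hS hTS hTi hTs ht V H
  · intro Γ _ S hS K hK hi V _ H
    exact part3 hS K hK hi V H
  · intro Γ _ _ S hS hbad j hj
    refine ⟨?_, ?_, ?_⟩
    · rintro ⟨hinf, ht⟩
      exact hbad 0 j (by omega)
        (minor_of_conn (hS j) hinf (conn_of_tame (gen_of (hS j)) hinf ht) _ _)
    · intro T hTS hTi hTs ht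
      exact hbad 0 j (by omega) (part2 (hS j) hTS hTi hTs ht _ _)
    · intro K hK
      by_contra hi
      exact hbad 0 j (by omega) (part3 (hS j) K hK hi _ _)

end Pool.Agent.Results.MP_266b34_co.InfiniteGenerators
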