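import Pool.Agent.Helper52.VF.FinBT
import Pool.Agent.Helper58.BT.RedN

/-!
# Cayley graphs of infinite degree: finitely generated groups, and reduction to subgroups
-/

set_option autoImplicit false

universe u v

namespace Pool.Agent.Results.MP_266b34_co.FinitelyGenerated

/-- `IsMinor H G`: `H` is a minor of `G` (pairwise disjoint nonempty connected branch sets `φ v`,
one for each vertex `v` of `H`, and an edge of `G` between `φ v` and `φ w` for every edge `v w`
of `H`; branch sets may be infinite). -/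
def IsMinor {V W : Type*} (H : SimpleGraph V) (G : SimpleGraph W) : Prop :=
  ∃ φ : V → Set W, (∀ v, (G.induce (φ v)).Connected) ∧
    (∀ v w, v ≠ w → Disjoint (φ v) (φ w)) ∧
    (∀ v w, H.Adj v w → ∃ a ∈ φ v, ∃ b ∈ φ w, G.Adj a b)

/-- `S` is an admissible generating set: it generates the group, is symmetric and does not
contain `1`. -/
def IsGen {Γ : Type*} [Group Γ] (S : Set Γ) : Prop :=
  Subgroup.closure S = ⊤ ∧ (∀ s ∈ S, s⁻¹ ∈ S) ∧ (1 : Γ) ∉ S

/-- The Cayley graph: `g` and `h` are adjacent iff `g ≠ h` and `g⁻¹ h ∈ S` or `h⁻¹ g ∈ S`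
(for a symmetric `S` with `1 ∉ S` this says exactly `g⁻¹ h ∈ S`). -/
def cay {Γ : Type*} [Group Γ] (S : Set Γ) : SimpleGraph Γ :=
  SimpleGraph.fromRel (fun a b : Γ => a⁻¹ * b ∈ S)

/-- The group has at most one end: every subset that is almost invariant under right
multiplication is finite or cofinite. -/
def AtMostOneEnd (Γ : Type*) [Group Γ] : Prop :=
  ∀ U : Set Γ, (∀ g : Γ, {x | x ∈ U ∧ x * g ∉ U}.Finite) → U.Finite ∨ Uᶜ.Finite

/-- The group is finitely generated, and the orders of its finite subgroups are bounded or it has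
at most one end. -/
def IsGood (Γ : Type*) [Group Γ] : Prop :=
  Group.FG Γ ∧
    ((∃ N : ℕ, ∀ F : Subgroup Γ, (F : Set Γ).Finite → Nat.card F ≤ N) ∨ AtMostOneEnd Γ)

/-- The group is rich: every countable graph is a minor of each of its Cayley graphs of infinite
degree. -/
def IsRich (Γ : Type u) [Group Γ] : Prop :=
  ∀ S : Set Γ, IsGen S → S.Infinite →
    ∀ (V : Type v) [Countable V] (H : SimpleGraph V), IsMinor H (cay S)

/-- `x` is a product of at most `N` elements of `S`. -/
def IsProd {Γ : Type*} [Group Γ] (S : Set Γ) (N : ℕ) (x : Γ) : Prop :=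
  ∃ l : List Γ, l.length ≤ N ∧ (∀ s ∈ l, s ∈ S) ∧ l.prod = x

/-- A complete minor on `ℕ` contains every countable graph. -/
theorem minor_of_nat {W : Type u} {G : SimpleGraph W} (φ : ℕ → Set W)
    (h1 : ∀ i, (G.induce (φ i)).Connected) (h2 : ∀ i j, i ≠ j → Disjoint (φ i) (φ j))
    (h3 : ∀ i j, i ≠ j → ∃ a ∈ φ i, ∃ b ∈ φ j, G.Adj a b)
    (V : Type v) [Countable V] (H : SimpleGraph V) : IsMinor H G := by
  obtain ⟨e, he⟩ := exists_injective_nat V
  exact ⟨fun v => φ (e v), fun v => h1 _, fun v w hvw => h2 _ _ (fun h => hvw (he h)),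
    fun v w hvw => h3 _ _ (fun h => hvw.ne (he h))⟩

/-- Good groups are rich. -/
theorem rich_of_good (Γ : Type u) [Group Γ] (hv : IsGood Γ) : IsRich.{u, v} Γ := by
  intro S hS hi V _ H
  have hG : Group.FG (⊤ : Subgroup Γ) := by
    have := hv.1
    exact Group.fg_of_surjective (f := (Subgroup.topEquiv (G := Γ)).symm.toMonoidHom)
      (Subgroup.topEquiv (G := Γ)).symm.surjective
  have h : (∃ N : ℕ, ∀ F : Subgroup (⊤ : Subgroup Γ), (F : Set (⊤ : Subgroup Γ)).Finite →
      Nat.card F ≤ N) ∨ AtMostOneEnd (⊤ : Subgroup Γ) := by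
    rcases hv.2 with ⟨N, hN⟩ | h
    · refine Or.inl ⟨N, ?_⟩
      intro F hF
      have e := F.equivMapOfInjective (⊤ : Subgroup Γ).subtype (Subgroup.subtype_injective _)
      rw [Nat.card_congr e.toEquiv]
      refine hN _ ?_
      rw [Subgroup.coe_map]
      exact hF.image _
    · refine Or.inr ?_
      intro U hU
      have hval : Function.Injective (fun x : (⊤ : Subgroup Γ) => (x : Γ)) :=
        Subtype.val_injective
      have key := h ((fun x : (⊤ : Subgroup Γ) => (x : Γ)) '' U) ?_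
      · rcases key with key | key
        · exact Or.inl (Set.Finite.of_finite_image key hval.injOn)
        · refine Or.inr (Set.Finite.of_finite_image (f := fun x : (⊤ : Subgroup Γ) => (x : Γ))
            (key.subset ?_) hval.injOn)
          rintro _ ⟨x, hx, rfl⟩ ⟨y, hy, hxy⟩
          exact hx (hval hxy ▸ hy)
      · intro g
        refine ((hU ⟨g, Subgroup.mem_top g⟩).image
          (fun x : (⊤ : Subgroup Γ) => (x : Γ))).subset ?_
        rintro _ ⟨⟨x, hx, rfl⟩, hxg⟩
        refine ⟨x, ⟨hx, ?_⟩, rfl⟩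
        intro h'
        exact hxg ⟨_, h', rfl⟩
  obtain ⟨φ, h1, h2, h3⟩ :=
    Pool.Agent.Helper52.VFBase.ap3c Γ S hS.1 hS.2.1 hS.2.2 ⊤ hG h 1
      (hi.mono fun s hs => ⟨hs, Subgroup.mem_top _⟩)
  exact minor_of_nat φ h1 h2 h3 V H

/-- The universe of the countable graphs does not matter. -/
theorem rich_lift.{w} (Γ : Type u) [Group Γ] (h : IsRich.{u, v} Γ) : IsRich.{u, w} Γ := by
  intro S hS hi V _ H
  obtain ⟨φ, h1, h2, h3⟩ := h S hS hi (ULift.{v} ℕ) ⊤
  refine minor_of_nat (fun i => φ (ULift.up i)) (fun i => h1 _)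
    (fun i j hij => h2 _ _ fun h => hij (ULift.up_injective h))
    (fun i j hij => h3 _ _ ?_) V H
  rw [SimpleGraph.top_adj]
  exact fun h => hij (ULift.up_injective h)

/-- **Reduction.** -/
theorem red (Γ : Type u) [Group Γ] (S : Set Γ) (hS : IsGen S) (D : Subgroup Γ) (b : Γ) (N : ℕ)
    (hi : {x | x * b⁻¹ ∈ D ∧ IsProd S N x}.Infinite) :
    ∃ T : Set D, IsGen T ∧ T.Infinite ∧ IsMinor (cay T) (cay S) := by
  obtain ⟨T, h1, h2, h3, h4, φ, g1, g2, g3⟩ :=
    Pool.Agent.Helper58.Red.reductionN Γ S hS.1 hS.2.1 hS.2.2 D b N hi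
  exact ⟨T, ⟨h1, h2, h3⟩, h4, φ, g1, g2, g3⟩

/-- Rich subgroups. -/
theorem coset (Γ : Type u) [Group Γ] (S : Set Γ) (hS : IsGen S) (D : Subgroup Γ)
    (hD : IsRich.{u, v} D) (b : Γ) (N : ℕ) (hi : {x | x * b⁻¹ ∈ D ∧ IsProd S N x}.Infinite)
    (V : Type v) [Countable V] (H : SimpleGraph V) : IsMinor H (cay S) := by
  obtain ⟨T, hT, hTi, φ, g1, g2, g3⟩ := red Γ S hS D b N hi
  obtain ⟨ψ, k1, k2, k3⟩ := rich_lift.{u, v, 0} D hD T hT hTi ℕ ⊤
  obtain ⟨χ, c1, c2, c3⟩ := Pool.Agent.Helper58.Red.comp φ g1 g2 g3 ψ k1 k2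
    (fun i j hij => k3 i j (by rwa [SimpleGraph.top_adj]))
  exact minor_of_nat χ c1 c2 c3 V H

/-- The case `N = 1`: infinitely many elements of `S` in one coset of a good subgroup. -/
theorem coset_one (Γ : Type u) [Group Γ] (S : Set Γ) (hS : IsGen S) (D : Subgroup Γ)
    (hD : IsGood D) (b : Γ) (hi : {s | s ∈ S ∧ s * b⁻¹ ∈ D}.Infinite)
    (V : Type v) [Countable V] (H : SimpleGraph V) : IsMinor H (cay S) :=
  coset Γ S hS D (rich_of_good D hD) b 1
    (hi.mono fun s hs => ⟨hs.2, [s], by simp, by simpa using hs.1, by simp⟩) V H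

/-- **Cayley graphs of infinite degree.**
(1) If `Γ` is finitely generated, and the orders of its finite subgroups are bounded or it has at
most one end, then `Γ` is rich: every countable graph is a minor of the Cayley graph of `(Γ, S)`,
for every infinite `S`.
(2) Let `D` be a subgroup of an arbitrary group `Γ`, and let infinitely many elements of some coset
`D b` be products of at most `N` elements of `S`. Then some Cayley graph of infinite degree of `D`
is a minor of the Cayley graph of `(Γ, S)`.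
(3) So if moreover `D` is rich, every countable graph is a minor of the Cayley graph of `(Γ, S)`.
(4) So if a sequence of countable Cayley graphs has no `i < j` with the `i`-th graph a minor of
the `j`-th, then for `1 ≤ j`: if `Γ j` is rich then `S j` is finite, and every coset of every rich
subgroup of `Γ j` contains only finitely many products of at most `N` elements of `S j`. -/
theorem result :
    (∀ (Γ : Type u) [Group Γ], IsGood Γ → IsRich.{u, v} Γ) ∧
    (∀ (Γ : Type u) [Group Γ] (S : Set Γ), IsGen S → ∀ (D : Subgroup Γ) (b : Γ) (N : ℕ),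
      {x | x * b⁻¹ ∈ D ∧ IsProd S N x}.Infinite →
      ∃ T : Set D, IsGen T ∧ T.Infinite ∧ IsMinor (cay T) (cay S)) ∧
    (∀ (Γ : Type u) [Group Γ] (S : Set Γ), IsGen S → ∀ D : Subgroup Γ, IsRich.{u, v} D →
      ∀ (b : Γ) (N : ℕ), {x | x * b⁻¹ ∈ D ∧ IsProd S N x}.Infinite →
      ∀ (V : Type v) [Countable V] (H : SimpleGraph V), IsMinor H (cay S)) ∧
    (∀ (Γ : ℕ → Type u) [∀ i, Group (Γ i)] [∀ i, Countable (Γ i)] (S : ∀ i, Set (Γ i)),
      (∀ i, IsGen (S i)) → (∀ i j, i < j → ¬ IsMinor (cay (S i)) (cay (S j))) →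
      ∀ j, 1 ≤ j → (IsRich.{u, v} (Γ j) → (S j).Finite) ∧
        ∀ D : Subgroup (Γ j), IsRich.{u, v} D → ∀ (b : Γ j) (N : ℕ),
          {x | x * b⁻¹ ∈ D ∧ IsProd (S j) N x}.Finite) := by
  refine ⟨?_, ?_, ?_, ?_⟩
  · intro Γ _ hv
    exact rich_of_good Γ hv
  · intro Γ _ S hS D b N hi
    exact red Γ S hS D b N hi
  · intro Γ _ S hS D hD b N hi V _ H
    exact coset Γ S hS D hD b N hi V H
  · intro Γ _ _ S hS hbad j hj
    refine ⟨?_, ?_⟩
    · intro hv
      by_contra hi
      exact hbad 0 j (by omega) (rich_lift _ hv (S j) (hS j) hi _ _)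
    · intro D hD b N
      by_contra hi
      exact hbad 0 j (by omega) (coset _ _ (hS j) D (rich_lift _ hD) b N hi _ _)

end Pool.Agent.Results.MP_266b34_co.FinitelyGenerated
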