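import Pool.Agent.Helper52.UN.FinS
import Pool.Agent.Helper74.FP.Asm

/-!
# Cayley graphs: virtually soluble groups, groups with large subgroups, free products
-/

set_option autoImplicit false

universe u v

namespace Pool.Agent.Results.MP_266b34_co.NilpotentGroups

open Pool.Agent.Helper52

/-- `IsMinor H G`: `H` is a minor of `G` (pairwise disjoint nonempty connected branch sets `φ v`,
one for each vertex `v` of `H`, and an edge of `G` between `φ v` and `φ w` for every edge `v w`
of `H`; branch sets may be infinite). -/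
def IsMinor {V W : Type*} (H : SimpleGraph V) (G : SimpleGraph W) : Prop :=
  ∃ φ : V → Set W, (∀ v, (G.induce (φ v)).Connected) ∧
    (∀ v w, v ≠ w → Disjoint (φ v) (φ w)) ∧
    (∀ v w, H.Adj v w → ∃ a ∈ φ v, ∃ b ∈ φ w, G.Adj a b)

/-- `S` is an admissible generating set: it generates the group, is symmetric and does not
contain `1`. -/
def IsGen {Γ : Type*} [Group Γ] (S : Set Γ) : Prop :=
  Subgroup.closure S = ⊤ ∧ (∀ s ∈ S, s⁻¹ ∈ S) ∧ (1 : Γ) ∉ S

/-- The Cayley graph: `g` and `h` are adjacent iff `g ≠ h` and `g⁻¹ h ∈ S` or `h⁻¹ g ∈ S`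
(for a symmetric `S` with `1 ∉ S` this says exactly `g⁻¹ h ∈ S`). -/
def cay {Γ : Type*} [Group Γ] (S : Set Γ) : SimpleGraph Γ :=
  SimpleGraph.fromRel (fun a b : Γ => a⁻¹ * b ∈ S)

theorem isMinor_iff {V W : Type*} (H : SimpleGraph V) (G : SimpleGraph W) :
    IsMinor H G ↔ Wq2.Mn H G := by
  constructor
  · rintro ⟨φ, h1, h2, h3⟩
    refine ⟨φ, fun v => (Wq2.conn_iff G _).1 (h1 v), ?_, h3⟩
    intro v w x hx hy
    by_contra hne
    exact Set.disjoint_left.1 (h2 v w hne) hx hy
  · rintro ⟨φ, h1, h2, h3⟩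
    refine ⟨φ, fun v => (Wq2.conn_iff G _).2 (h1 v), ?_, h3⟩
    intro v w hne
    rw [Set.disjoint_left]
    intro x hx hy
    exact hne (h2 v w x hx hy)

/-- At most one end (every subset that is almost invariant under right multiplication is finite or
cofinite), or an infinite normal subgroup without free subgroups of rank two or with infinite
centralizer. -/
def Tame (D : Type u) [Group D] : Prop :=
  (∀ U : Set D, (∀ g : D, {x | x ∈ U ∧ x * g ∉ U}.Finite) → U.Finite ∨ Uᶜ.Finite) ∨
  ∃ N : Subgroup D, N.Normal ∧ Infinite N ∧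
    ((∀ f : FreeGroup (Fin 2) →* N, ¬ Function.Injective f) ∨
      Infinite (Subgroup.centralizer (N : Set D)))

/-- A soluble subgroup of finite index, no cyclic subgroup of finite index, and a nontrivial
finite normal subgroup or no subgroup of finite index isomorphic to `ℤ × ℤ`. -/
def VirtSol (D : Type u) [Group D] : Prop :=
  (∃ N : Subgroup D, N.FiniteIndex ∧ Group.IsSolvable N) ∧
    (¬ ∃ c : D, (Subgroup.zpowers c).FiniteIndex) ∧
    ((∃ K : Subgroup D, K.Normal ∧ K ≠ ⊥ ∧ (K : Set D).Finite) ∨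
      ¬ ∃ A : Subgroup D, A.FiniteIndex ∧ Nonempty (A ≃* Multiplicative (ℤ × ℤ)))

/-- The group has a large subgroup: not finitely generated and tame, or as in `VirtSol`. -/
def Large (Γ : Type u) [Group Γ] : Prop :=
  ∃ D : Subgroup Γ, (¬ Group.FG D ∧ Tame D) ∨ VirtSol D

/-- The class of groups: nilpotent, or with centre of finite index, or with a cyclic subgroup of
finite index, or with a large subgroup. -/
def InClass (Γ : Type u) [Group Γ] : Prop :=
  Group.IsNilpotent Γ ∨ (Subgroup.center Γ).FiniteIndex ∨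
    (∃ c : Γ, (Subgroup.zpowers c).FiniteIndex) ∨ Large Γ

/-- The pairs `(Γ, S)` that are admitted as factors: `Γ` is countable and either infinite and in the
class, or the complete graph on `ℕ` (equivalently, every countable graph) is a minor of the Cayley
graph; or `Γ` has at most `N` elements. -/
def Factor (N : ℕ) (Γ : Type u) [Group Γ] (S : Set Γ) : Prop :=
  (Countable Γ ∧ ((Infinite Γ ∧ InClass Γ) ∨ IsMinor (⊤ : SimpleGraph ℕ) (cay S))) ∨
    (Finite Γ ∧ Nat.card Γ ≤ N)

/-- `G` is isomorphic to the Cayley graph of a finite free product of admitted factors `A l`, with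
the union of the generating sets `S l`. -/
def IsProduct (N : ℕ) {V : Type v} (G : SimpleGraph V) : Prop :=
  ∃ (k : ℕ) (A : Fin k → Type u) (_ : ∀ l, Group (A l)) (S : ∀ l, Set (A l)),
    (∀ l, IsGen (S l)) ∧ (∀ l, Factor N (A l) (S l)) ∧
    Nonempty (G ≃g cay {x : Monoid.CoprodI A | ∃ l, ∃ s ∈ S l, x = Monoid.CoprodI.of s})

/-- **Cayley graphs of finite free products of groups of the class.** For every `N` and all graphs
`G 0, G 1, …`, each isomorphic to the Cayley graph of a finite free product of admitted factors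
(with the union of the generating sets, finite or infinite), there are `i < j` such that `G i` is a
minor of `G j`. -/
theorem result (N : ℕ) (V : ℕ → Type v) (G : ∀ i, SimpleGraph (V i))
    (hG : ∀ i, IsProduct.{u, v} N (G i)) : ∃ i j, i < j ∧ IsMinor (G i) (G j) := by
  obtain ⟨i, j, hij, hm⟩ := Pool.Agent.Helper74.FP.fp.{u, v}
    (fun Γ _ S => UN.P1 Γ S) UN.wqo1 N V G (fun i => by
      obtain ⟨k, A, inst, S, h1, h2, h3⟩ := hG i
      refine ⟨k, A, inst, S, h1, fun l => ?_, h3⟩
      rcases h2 l with ⟨h4, h5 | h5⟩ | h4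
      · exact Or.inl ⟨h4, Or.inl h5⟩
      · exact Or.inl ⟨h4, Or.inr ((isMinor_iff _ _).1 h5)⟩
      · exact Or.inr h4)
  exact ⟨i, j, hij, (isMinor_iff _ _).2 hm⟩

/-- For the groups with a large subgroup more is true (this is used in `result`): every countable
graph is a minor of every Cayley graph of the group. -/
theorem large (Γ : Type u) [Group Γ] (h : Large Γ) (S : Set Γ) (hS : IsGen S)
    (V : Type v) [Countable V] (H : SimpleGraph V) : IsMinor H (cay S) := by
  have h1 : Wq2.Mn (⊤ : SimpleGraph ℕ) (cay S) := UN.uv_lrs h S hS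
  obtain ⟨e, he⟩ := exists_injective_nat V
  exact (isMinor_iff _ _).2 ((Wq2.Mn.of_inj e he (fun a b hab => fun h' => hab.ne (he h'))).trans
    h1)

/-- One factor. -/
theorem simple (Γ : ℕ → Type u) [∀ i, Group (Γ i)] [∀ i, Countable (Γ i)]
    (S : ∀ i, Set (Γ i)) (hS : ∀ i, IsGen (S i))
    (h : ∀ i, (Infinite (Γ i) ∧ InClass (Γ i)) ∨ IsMinor (⊤ : SimpleGraph ℕ) (cay (S i))) :
    ∃ i j, i < j ∧ IsMinor (cay (S i)) (cay (S j)) := by
  obtain ⟨i, j, hij, hm⟩ := UN.wqo1 Γ S hS (fun i => ⟨inferInstance, by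
    rcases h i with hi | hu
    · exact Or.inl hi
    · exact Or.inr ((isMinor_iff _ _).1 hu)⟩)
  exact ⟨i, j, hij, (isMinor_iff _ _).2 hm⟩

/-- The virtually soluble groups without a subgroup of finite index isomorphic to `ℤ × ℤ` are in
the class. -/
theorem inClass_of_virtually_soluble (Γ : Type u) [Group Γ]
    (h1 : ∃ N : Subgroup Γ, N.FiniteIndex ∧ Group.IsSolvable N)
    (h2 : ¬ ∃ A : Subgroup Γ, A.FiniteIndex ∧ Nonempty (A ≃* Multiplicative (ℤ × ℤ))) :
    InClass Γ := by
  by_cases hc : ∃ c : Γ, (Subgroup.zpowers c).FiniteIndex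
  · exact Or.inr (Or.inr (Or.inl hc))
  · exact Or.inr (Or.inr (Or.inr ⟨⊤, Or.inr (UN.vs_top ⟨h1, hc, Or.inr h2⟩)⟩))

/-- The virtually soluble groups with a nontrivial finite normal subgroup are in the class. -/
theorem inClass_of_virtually_soluble' (Γ : Type u) [Group Γ]
    (h1 : ∃ N : Subgroup Γ, N.FiniteIndex ∧ Group.IsSolvable N)
    (h2 : ∃ K : Subgroup Γ, K.Normal ∧ K ≠ ⊥ ∧ (K : Set Γ).Finite) : InClass Γ := by
  by_cases hc : ∃ c : Γ, (Subgroup.zpowers c).FiniteIndex
  · exact Or.inr (Or.inr (Or.inl hc))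
  · exact Or.inr (Or.inr (Or.inr ⟨⊤, Or.inr (UN.vs_top ⟨h1, hc, Or.inl h2⟩)⟩))

/-- The abelian groups are in the class. -/
theorem inClass_of_comm (Γ : Type u) [Group Γ] (h : ∀ a b : Γ, a * b = b * a) : InClass Γ := by
  have h3 : Subgroup.center Γ = ⊤ := by
    rw [Subgroup.eq_top_iff']
    intro x
    rw [Subgroup.mem_center_iff]
    intro g
    exact h g x
  refine Or.inr (Or.inl ?_)
  rw [h3]
  infer_instance

end Pool.Agent.Results.MP_266b34_co.NilpotentGroups
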