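import Mathlib

set_option autoImplicit false

namespace Pool.Agent.Results.MP_266b34_co.ThomasEquivalence

/-- `IsMinor H G`: `H` is a minor of `G` (pairwise disjoint nonempty connected branch sets `φ v`,
one for each vertex `v` of `H`, and an edge of `G` between `φ v` and `φ w` for every edge `v w`
of `H`; branch sets may be infinite). -/
def IsMinor {V W : Type*} (H : SimpleGraph V) (G : SimpleGraph W) : Prop :=
  ∃ φ : V → Set W, (∀ v, (G.induce (φ v)).Connected) ∧
    (∀ v w, v ≠ w → Disjoint (φ v) (φ w)) ∧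
    (∀ v w, H.Adj v w → ∃ a ∈ φ v, ∃ b ∈ φ w, G.Adj a b)

/-- `S` is an admissible generating set: it generates the group, is symmetric and does not
contain `1`. -/
def IsGen {Γ : Type*} [Group Γ] (S : Set Γ) : Prop :=
  Subgroup.closure S = ⊤ ∧ (∀ s ∈ S, s⁻¹ ∈ S) ∧ (1 : Γ) ∉ S

/-- The Cayley graph: `g` and `h` are adjacent iff `g ≠ h` and `g⁻¹ h ∈ S` or `h⁻¹ g ∈ S`
(for a symmetric `S` with `1 ∉ S` this says exactly `g⁻¹ h ∈ S`). -/
def cay {Γ : Type*} [Group Γ] (S : Set Γ) : SimpleGraph Γ :=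
  SimpleGraph.fromRel (fun a b : Γ => a⁻¹ * b ∈ S)

theorem cay_adj {Γ : Type*} [Group Γ] {S : Set Γ} (hS : IsGen S) (a b : Γ) :
    (cay S).Adj a b ↔ a⁻¹ * b ∈ S := by
  unfold cay
  rw [SimpleGraph.fromRel_adj]
  constructor
  · rintro ⟨_, h | h⟩
    · exact h
    · have := hS.2.1 _ h
      simpa using this
  · intro h
    refine ⟨?_, Or.inl h⟩
    rintro rfl
    apply hS.2.2
    simpa using h

/-- Connectedness of a set of vertices in terms of closed subsets. -/
def Conn {V : Type*} (G : SimpleGraph V) (s : Set V) : Prop :=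
  s.Nonempty ∧ ∀ A ⊆ s, A.Nonempty → (∀ a ∈ A, ∀ b ∈ s, G.Adj a b → b ∈ A) → s ⊆ A

theorem conn_iff {V : Type*} (G : SimpleGraph V) (s : Set V) :
    (G.induce s).Connected ↔ Conn G s := by
  constructor
  · intro h
    refine ⟨?_, ?_⟩
    · obtain ⟨x⟩ := h.nonempty
      exact ⟨x.1, x.2⟩
    · intro A hA hne hcl y hy
      obtain ⟨x, hx⟩ := hne
      have hr : (G.induce s).Reachable ⟨x, hA hx⟩ ⟨y, hy⟩ := h.preconnected _ _
      obtain ⟨p⟩ := hr
      have key : ∀ (u v : s) (p : (G.induce s).Walk u v), u.1 ∈ A → v.1 ∈ A := by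
        intro u v p
        induction p with
        | nil => exact id
        | cons hadj _ ih =>
          intro hu
          exact ih (hcl _ hu _ (Subtype.property _) hadj)
      exact key _ _ p hx
  · rintro ⟨⟨x, hx⟩, h⟩
    rw [SimpleGraph.connected_iff]
    refine ⟨?_, ⟨⟨x, hx⟩⟩⟩
    intro u v
    have := h {z | ∃ hz : z ∈ s, (G.induce s).Reachable u ⟨z, hz⟩} (by
        rintro z ⟨hz, _⟩; exact hz) ⟨u.1, u.2, SimpleGraph.Reachable.refl _⟩ (by
        rintro a ⟨ha, hr⟩ b hb hab
        refine ⟨hb, hr.trans ?_⟩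
        exact SimpleGraph.Adj.reachable (G := G.induce s) (u := ⟨a, ha⟩) (v := ⟨b, hb⟩) hab)
    obtain ⟨_, hr⟩ := this v.2
    exact hr

/-- Minor models in terms of `Conn`. -/
def Model {V W : Type*} (H : SimpleGraph V) (G : SimpleGraph W) (φ : V → Set W) : Prop :=
  (∀ v, Conn G (φ v)) ∧ (∀ v w x, x ∈ φ v → x ∈ φ w → v = w) ∧
    (∀ v w, H.Adj v w → ∃ a ∈ φ v, ∃ b ∈ φ w, G.Adj a b)

theorem isMinor_iff {V W : Type*} (H : SimpleGraph V) (G : SimpleGraph W) :
    IsMinor H G ↔ ∃ φ, Model H G φ := by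
  constructor
  · rintro ⟨φ, h1, h2, h3⟩
    refine ⟨φ, fun v => (conn_iff _ _).1 (h1 v), ?_, h3⟩
    intro v w x hv hw
    by_contra hne
    exact Set.disjoint_left.1 (h2 v w hne) hv hw
  · rintro ⟨φ, h1, h2, h3⟩
    refine ⟨φ, fun v => (conn_iff _ _).2 (h1 v), ?_, h3⟩
    intro v w hne
    rw [Set.disjoint_left]
    intro x hv hw
    exact hne (h2 v w x hv hw)

/-- Image of a connected set under a map that contracts or preserves edges. -/
theorem Conn.image {V W : Type*} {G : SimpleGraph V} {G' : SimpleGraph W} {s : Set V}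
    (h : Conn G s) (f : V → W)
    (hf : ∀ a ∈ s, ∀ b ∈ s, G.Adj a b → f a = f b ∨ G'.Adj (f a) (f b)) : Conn G' (f '' s) := by
  refine ⟨h.1.image f, ?_⟩
  intro A hA hne hcl
  have := h.2 {a ∈ s | f a ∈ A} (fun a ha => ha.1) (by
    obtain ⟨y, hy⟩ := hne
    obtain ⟨a, ha, rfl⟩ := hA hy
    exact ⟨a, ha, hy⟩) (by
    rintro a ⟨ha, hfa⟩ b hb hab
    refine ⟨hb, ?_⟩
    rcases hf a ha b hb hab with h' | h'
    · rw [← h']; exact hfa
    · exact hcl _ hfa _ ⟨b, hb, rfl⟩ h')
  rintro _ ⟨a, ha, rfl⟩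
  exact (this ha).2

/-- Preimage of a connected set under an injective map. -/
theorem Conn.preimage {V W : Type*} {G : SimpleGraph V} {G' : SimpleGraph W} {s : Set W}
    (h : Conn G' s) (f : V → W) (hinj : Function.Injective f) (hs : ∀ x ∈ s, ∃ a, f a = x)
    (hf : ∀ a b, G'.Adj (f a) (f b) → G.Adj a b) : Conn G (f ⁻¹' s) := by
  refine ⟨?_, ?_⟩
  · obtain ⟨x, hx⟩ := h.1
    obtain ⟨a, rfl⟩ := hs x hx
    exact ⟨a, hx⟩
  · intro A hA hne hcl
    have := h.2 (f '' A) (by rintro _ ⟨a, ha, rfl⟩; exact hA ha) (hne.image f) (by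
      rintro _ ⟨a, ha, rfl⟩ y hy hadj
      obtain ⟨b, rfl⟩ := hs y hy
      exact ⟨b, hcl a ha b hy (hf _ _ hadj), rfl⟩)
    intro a ha
    obtain ⟨b, hb, hab⟩ := this ha
    rw [← hinj hab]
    exact hb

/-- The cone over a graph: a new vertex `none` adjacent to everything. -/
def cone {V : Type*} (G : SimpleGraph V) : SimpleGraph (Option V) where
  Adj a b := match a, b with
    | none, none => False
    | none, some _ => True
    | some _, none => True
    | some u, some v => G.Adj u v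
  symm := ⟨by
    rintro (_ | a) (_ | b) h
    · exact h
    · trivial
    · trivial
    · exact SimpleGraph.Adj.symm (G := G) h⟩
  loopless := ⟨by
    rintro (_ | a) h
    · exact h
    · exact G.loopless.irrefl _ h⟩

/-- Add infinitely many isolated vertices. -/
def pad {V : Type*} (G : SimpleGraph V) : SimpleGraph (V ⊕ ℕ) where
  Adj a b := match a, b with
    | .inl u, .inl v => G.Adj u v
    | _, _ => False
  symm := ⟨by
    rintro (a | a) (b | b) h
    · exact SimpleGraph.Adj.symm (G := G) h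
    · exact h
    · exact h
    · exact h⟩
  loopless := ⟨by
    rintro (a | a) h
    · exact G.loopless.irrefl _ h
    · exact h⟩

section lemmas

variable {V W : Type*} {G : SimpleGraph V} {G' : SimpleGraph W}

theorem cone_none_some (v : V) : (cone G).Adj none (some v) := trivial
theorem cone_some_none (v : V) : (cone G).Adj (some v) none := trivial
theorem cone_some_some (u v : V) : (cone G).Adj (some u) (some v) ↔ G.Adj u v := Iff.rfl

/-- Restriction of a model along an injective homomorphism. -/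
theorem Model.comp {U : Type*} {P : SimpleGraph U} {φ : V → Set W} (h : Model G G' φ)
    (f : U → V) (hinj : Function.Injective f) (hf : ∀ a b, P.Adj a b → G.Adj (f a) (f b)) :
    Model P G' (φ ∘ f) :=
  ⟨fun v => h.1 (f v), fun _ _ x hv hw => hinj (h.2.1 _ _ x hv hw),
    fun _ _ hvw => h.2.2 _ _ (hf _ _ hvw)⟩

/-- Apex removal. -/
theorem minor_of_cone_minor (h : IsMinor (cone G) (cone G')) : IsMinor G G' := by
  classical
  rw [isMinor_iff] at h ⊢
  obtain ⟨φ, hφ⟩ := h
  let σ : V → Option V := fun v => if (none : Option W) ∈ φ (some v) then none else some v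
  have hσn : ∀ v, (none : Option W) ∈ φ (some v) → σ v = none := fun v hv => if_pos hv
  have hσs : ∀ v, (none : Option W) ∉ φ (some v) → σ v = some v := fun v hv => if_neg hv
  have hnone : ∀ v, (none : Option W) ∉ φ (σ v) := by
    intro v hv
    by_cases h0 : (none : Option W) ∈ φ (some v)
    · rw [hσn v h0] at hv
      have := hφ.2.1 _ _ _ hv h0
      exact absurd this (by simp)
    · rw [hσs v h0] at hv
      exact h0 hv
  have hinj : Function.Injective σ := by
    intro v w hvw
    by_cases h0 : (none : Option W) ∈ φ (some v) <;> by_cases h1 : (none : Option W) ∈ φ (some w)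
    · simpa using hφ.2.1 _ _ _ h0 h1
    · rw [hσn v h0, hσs w h1] at hvw
      exact absurd hvw (by simp)
    · rw [hσs v h0, hσn w h1] at hvw
      exact absurd hvw (by simp)
    · rw [hσs v h0, hσs w h1] at hvw
      simpa using hvw
  have hadj : ∀ v w, G.Adj v w → (cone G).Adj (σ v) (σ w) := by
    intro v w hvw
    by_cases h0 : (none : Option W) ∈ φ (some v) <;> by_cases h1 : (none : Option W) ∈ φ (some w)
    · have : v = w := by simpa using hφ.2.1 _ _ _ h0 h1
      exact absurd this hvw.ne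
    · rw [hσn v h0, hσs w h1]; exact cone_none_some _
    · rw [hσs v h0, hσn w h1]; exact cone_some_none _
    · rw [hσs v h0, hσs w h1]; exact hvw
  have hm := hφ.comp σ hinj hadj
  refine ⟨fun v => some ⁻¹' φ (σ v), ?_, ?_, ?_⟩
  · intro v
    refine (hm.1 v).preimage some (Option.some_injective _) ?_ (fun a b h => h)
    rintro (_ | x) hx
    · exact absurd hx (hnone v)
    · exact ⟨x, rfl⟩
  · intro v w x hv hw
    exact hm.2.1 v w (some x) hv hw
  · intro v w hvw
    obtain ⟨a, ha, b, hb, hab⟩ := hm.2.2 v w hvw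
    rcases a with _ | a
    · exact absurd ha (hnone v)
    rcases b with _ | b
    · exact absurd hb (hnone w)
    exact ⟨a, ha, b, hb, hab⟩

/-- Isolated vertex removal. -/
theorem minor_of_minor_pad (hG : ∀ v, ∃ w, G.Adj v w) (h : IsMinor G (pad G')) : IsMinor G G' := by
  rw [isMinor_iff] at h ⊢
  obtain ⟨φ, hφ⟩ := h
  have hl : ∀ v, ∀ x ∈ φ v, ∃ a, (Sum.inl a : W ⊕ ℕ) = x := by
    intro v
    obtain ⟨w, hw⟩ := hG v
    obtain ⟨a, ha, b, hb, hab⟩ := hφ.2.2 v w hw
    have := (hφ.1 v).2 {x ∈ φ v | ∃ a, (Sum.inl a : W ⊕ ℕ) = x} (fun x hx => hx.1) (by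
      refine ⟨a, ha, ?_⟩
      rcases a with a | a
      · exact ⟨a, rfl⟩
      · exact absurd hab (by rcases b with b | b <;> exact fun h => h)) (by
      rintro x ⟨hx, y, rfl⟩ z hz hadj
      refine ⟨hz, ?_⟩
      rcases z with z | z
      · exact ⟨z, rfl⟩
      · exact absurd hadj (fun h => h))
    intro x hx
    exact (this hx).2
  refine ⟨fun v => Sum.inl ⁻¹' φ v, ?_, ?_, ?_⟩
  · intro v
    exact (hφ.1 v).preimage Sum.inl Sum.inl_injective (hl v) (fun a b h => h)
  · intro v w x hv hw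
    exact hφ.2.1 v w (Sum.inl x) hv hw
  · intro v w hvw
    obtain ⟨a, ha, b, hb, hab⟩ := hφ.2.2 v w hvw
    obtain ⟨a, rfl⟩ := hl v a ha
    obtain ⟨b, rfl⟩ := hl w b hb
    exact ⟨a, ha, b, hb, hab⟩

theorem cone_mono (h : IsMinor G G') : IsMinor (cone G) (cone G') := by
  rw [isMinor_iff] at h ⊢
  obtain ⟨φ, hφ⟩ := h
  refine ⟨fun o => match o with
    | none => {none}
    | some v => some '' φ v, ?_, ?_, ?_⟩
  · rintro (_ | v)
    · refine ⟨⟨none, rfl⟩, ?_⟩
      rintro A hA ⟨x, hx⟩ _ y hy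
      have h1 : x = none := hA hx
      have h2 : y = none := hy
      rw [h2, ← h1]; exact hx
    · exact (hφ.1 v).image some (fun a _ b _ hab => Or.inr hab)
  · rintro (_ | v) (_ | w) x hv hw
    · rfl
    · obtain ⟨y, _, hy⟩ := hw
      have h1 : x = none := hv
      rw [h1] at hy
      exact absurd hy (by simp)
    · obtain ⟨y, _, hy⟩ := hv
      have h1 : x = none := hw
      rw [h1] at hy
      exact absurd hy (by simp)
    · obtain ⟨y, hy, rfl⟩ := hv
      obtain ⟨z, hz, hzy⟩ := hw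
      have : z = y := by simpa using hzy
      subst this
      rw [hφ.2.1 v w z hy hz]
  · rintro (_ | v) (_ | w) hvw
    · exact absurd hvw (fun h => h)
    · obtain ⟨b, hb⟩ := (hφ.1 w).1
      exact ⟨none, rfl, some b, ⟨b, hb, rfl⟩, trivial⟩
    · obtain ⟨b, hb⟩ := (hφ.1 v).1
      exact ⟨some b, ⟨b, hb, rfl⟩, none, rfl, trivial⟩
    · obtain ⟨a, ha, b, hb, hab⟩ := hφ.2.2 v w hvw
      exact ⟨some a, ⟨a, ha, rfl⟩, some b, ⟨b, hb, rfl⟩, hab⟩

theorem pad_mono (h : IsMinor G G') : IsMinor (pad G) (pad G') := by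
  rw [isMinor_iff] at h ⊢
  obtain ⟨φ, hφ⟩ := h
  refine ⟨fun o => match o with
    | .inl v => Sum.inl '' φ v
    | .inr n => {Sum.inr n}, ?_, ?_, ?_⟩
  · rintro (v | n)
    · exact (hφ.1 v).image Sum.inl (fun a _ b _ hab => Or.inr hab)
    · refine ⟨⟨.inr n, rfl⟩, ?_⟩
      rintro A hA ⟨x, hx⟩ _ y hy
      have h1 : x = .inr n := hA hx
      have h2 : y = .inr n := hy
      rw [h2, ← h1]; exact hx
  · rintro (v | n) (w | m) x hv hw
    · obtain ⟨y, hy, rfl⟩ := hv
      obtain ⟨z, hz, hzy⟩ := hw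
      have : z = y := by simpa using hzy
      subst this
      rw [hφ.2.1 v w z hy hz]
    · obtain ⟨y, _, hy⟩ := hv
      have h1 : x = .inr m := hw
      rw [h1] at hy
      exact absurd hy (by simp)
    · obtain ⟨y, _, hy⟩ := hw
      have h1 : x = .inr n := hv
      rw [h1] at hy
      exact absurd hy (by simp)
    · have h1 : x = .inr n := hv
      have h2 : x = .inr m := hw
      have h3 : n = m := Sum.inr_injective (h1.symm.trans h2)
      rw [h3]
  · rintro (v | n) (w | m) hvw
    · obtain ⟨a, ha, b, hb, hab⟩ := hφ.2.2 v w hvw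
      exact ⟨.inl a, ⟨a, ha, rfl⟩, .inl b, ⟨b, hb, rfl⟩, hab⟩
    · exact absurd hvw (fun h => h)
    · exact absurd hvw (fun h => h)
    · exact absurd hvw (fun h => h)

/-- Minors are invariant under isomorphism. -/
theorem IsMinor.congr {V' W' : Type*} {H : SimpleGraph V'} {H' : SimpleGraph W'}
    (e : V' ≃ V) (he : ∀ a b, H.Adj a b → G.Adj (e a) (e b))
    (f : W ≃ W') (hf : ∀ a b, G'.Adj a b → H'.Adj (f a) (f b)) (h : IsMinor G G') :
    IsMinor H H' := by
  rw [isMinor_iff] at h ⊢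
  obtain ⟨φ, hφ⟩ := h
  refine ⟨fun v => f '' φ (e v), ?_, ?_, ?_⟩
  · intro v
    exact (hφ.1 (e v)).image f (fun a _ b _ hab => Or.inr (hf a b hab))
  · rintro v w x ⟨y, hy, rfl⟩ ⟨z, hz, hzy⟩
    have : z = y := f.injective hzy
    subst this
    exact e.injective (hφ.2.1 _ _ _ hy hz)
  · intro v w hvw
    obtain ⟨a, ha, b, hb, hab⟩ := hφ.2.2 _ _ (he v w hvw)
    exact ⟨f a, ⟨a, ha, rfl⟩, f b, ⟨b, hb, rfl⟩, hf a b hab⟩

end lemmas


section free

variable {V : Type*}

/-- The labelled block `{1} ∪ {x_v}` of the free group. -/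
def bl : Option V → FreeGroup V
  | none => 1
  | some v => FreeGroup.of v

/-- The generating set attached to a graph on `Option V`. -/
def gens (K : SimpleGraph (Option V)) : Set (FreeGroup V) :=
  {x | ∃ i j, K.Adj i j ∧ x = (bl i)⁻¹ * bl j}

section gate
variable [DecidableEq V]

/-- Last letter test. -/
def lastNeg : List (V × Bool) → Option V
  | [] => none
  | [(v, false)] => some v
  | [(_, true)] => none
  | _ :: y :: l => lastNeg (y :: l)

/-- The gate map of the block `{1} ∪ {x_v}`: `some v` if the reduced word starts with `x_v`. -/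
def gate (z : FreeGroup V) : Option V := lastNeg (z⁻¹).toWord

theorem gate_bl (i : Option V) : gate (bl i) = i := by
  rcases i with _ | v
  · simp [gate, bl, lastNeg]
  · simp [gate, bl, lastNeg, FreeGroup.invRev]

omit [DecidableEq V] in
theorem lastNeg_cons_cons (x y : V × Bool) (l : List (V × Bool)) :
    lastNeg (x :: y :: l) = lastNeg (y :: l) := by
  rcases x with ⟨a, _ | _⟩ <;> rfl

theorem gate_mul_bl {g : FreeGroup V} (hg : g ≠ 1) (i : Option V) :
    gate (g * bl i) = gate g := by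
  rcases i with _ | v
  · simp [bl]
  · unfold gate
    have h1 : (g * bl (some v))⁻¹ = (FreeGroup.of v)⁻¹ * g⁻¹ := by simp [bl]
    rw [h1, FreeGroup.toWord_mul]
    have h2 : ((FreeGroup.of v)⁻¹ : FreeGroup V).toWord = [(v, false)] := by
      simp [FreeGroup.invRev]
    rw [h2, List.singleton_append, FreeGroup.reduce.cons, FreeGroup.reduce_toWord]
    have h3 : (g⁻¹).toWord ≠ [] := by
      rw [ne_eq, FreeGroup.toWord_eq_nil_iff]
      simpa using hg
    rcases hw : (g⁻¹).toWord with _ | ⟨⟨a, b⟩, l⟩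
    · exact absurd hw h3
    · show lastNeg (if (v, false).1 = (a, b).1 ∧ (v, false).2 = !(a, b).2 then l
        else (v, false) :: (a, b) :: l) = lastNeg ((a, b) :: l)
      split_ifs with hc
      · obtain ⟨h4, h5⟩ := hc
        have hb : b = true := by
          simpa using h5
        subst hb
        rcases l with _ | ⟨y, l⟩
        · rfl
        · rw [lastNeg_cons_cons]
      · rw [lastNeg_cons_cons]

end gate

theorem bl_injective : Function.Injective (bl : Option V → FreeGroup V) := by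
  classical
  intro i j h
  rw [← gate_bl i, ← gate_bl j, h]

theorem gens_isGen {H : SimpleGraph V} : IsGen (gens (cone H)) := by
  refine ⟨?_, ?_, ?_⟩
  · rw [eq_top_iff, ← FreeGroup.closure_range_of V, Subgroup.closure_le]
    rintro _ ⟨v, rfl⟩
    apply Subgroup.subset_closure
    exact ⟨none, some v, trivial, by simp [bl]⟩
  · rintro _ ⟨i, j, hij, rfl⟩
    exact ⟨j, i, hij.symm, by simp⟩
  · rintro ⟨i, j, hij, h⟩
    have : bl i = bl j := by
      have := congrArg (fun x => bl i * x) h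
      simpa using this
    exact hij.ne (bl_injective this)

/-- The capture lemma: a graph that stays connected after deleting any vertex, if it is a minor of
the Cayley graph, is a minor of a block. -/
theorem capture {U : Type*} {M : SimpleGraph U} {K : SimpleGraph (Option V)}
    (hK : IsGen (gens K))
    (hM : ∀ R : Set U, R.Subsingleton → ∀ A ⊆ Rᶜ, A.Nonempty →
      (∀ a ∈ A, ∀ b ∈ Rᶜ, M.Adj a b → b ∈ A) → Rᶜ ⊆ A)
    {a b : U} (hab : M.Adj a b) (h : IsMinor M (cay (gens K))) : IsMinor M K := by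
  classical
  rw [isMinor_iff] at h ⊢
  obtain ⟨φ₀, hφ₀⟩ := h
  obtain ⟨z₀, hz₀, z₁, hz₁, hadj⟩ := hφ₀.2.2 a b hab
  rw [cay_adj hK] at hadj
  obtain ⟨i, j, hij, hz⟩ := hadj
  -- translate
  set g : FreeGroup V := z₀ * (bl i)⁻¹ with hg
  have hz₀' : g⁻¹ * z₀ = bl i := by rw [hg]; group
  have hz₁' : g⁻¹ * z₁ = bl j := by
    rw [hg]
    have : z₁ = z₀ * ((bl i)⁻¹ * bl j) := by rw [← hz]; group
    rw [this]; group
  have hedge : ∀ x y : FreeGroup V, (cay (gens K)).Adj x y →
      ∃ t : FreeGroup V, ∃ k l, K.Adj k l ∧ x = t * bl k ∧ y = t * bl l := by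
    intro x y hxy
    rw [cay_adj hK] at hxy
    obtain ⟨k, l, hkl, h⟩ := hxy
    refine ⟨x * (bl k)⁻¹, k, l, hkl, by group, ?_⟩
    have : y = x * (x⁻¹ * y) := by group
    rw [this, h]; group
  -- the key dichotomy
  have hdich : ∀ x y : FreeGroup V, (cay (gens K)).Adj x y →
      gate x = gate y ∨ (x = bl (gate x) ∧ y = bl (gate y) ∧ K.Adj (gate x) (gate y)) := by
    intro x y hxy
    obtain ⟨t, k, l, hkl, rfl, rfl⟩ := hedge x y hxy
    by_cases ht : t = 1
    · right
      subst ht
      simp only [one_mul, gate_bl]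
      exact ⟨trivial, trivial, hkl⟩
    · left
      rw [gate_mul_bl ht, gate_mul_bl ht]
  set φ : U → Set (FreeGroup V) := fun u => (fun x => g⁻¹ * x) '' φ₀ u with hφdef
  have hφ : Model M (cay (gens K)) φ := by
    refine ⟨?_, ?_, ?_⟩
    · intro v
      refine (hφ₀.1 v).image _ ?_
      intro x _ y _ hxy
      right
      rw [cay_adj hK] at hxy ⊢
      have : (g⁻¹ * x)⁻¹ * (g⁻¹ * y) = x⁻¹ * y := by group
      rw [this]; exact hxy
    · rintro v w x ⟨y, hy, rfl⟩ ⟨z, hz, hzy⟩
      have : z = y := mul_left_cancel hzy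
      subst this
      exact hφ₀.2.1 _ _ _ hy hz
    · intro v w hvw
      obtain ⟨x, hx, y, hy, hxy⟩ := hφ₀.2.2 v w hvw
      refine ⟨g⁻¹ * x, ⟨x, hx, rfl⟩, g⁻¹ * y, ⟨y, hy, rfl⟩, ?_⟩
      rw [cay_adj hK] at hxy ⊢
      have : (g⁻¹ * x)⁻¹ * (g⁻¹ * y) = x⁻¹ * y := by group
      rw [this]; exact hxy
  have hia : bl i ∈ φ a := ⟨z₀, hz₀, hz₀'⟩
  have hjb : bl j ∈ φ b := ⟨z₁, hz₁, hz₁'⟩
  -- sets stay behind the gate
  have hstay : ∀ u c, bl c ∉ φ u → ∀ z ∈ φ u, gate z = c → ∀ y ∈ φ u, gate y = c := by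
    intro u c hc z hz hzc y hy
    have := (hφ.1 u).2 {x ∈ φ u | gate x = c} (fun x hx => hx.1) ⟨z, hz, hzc⟩ (by
      rintro x ⟨hx, hxc⟩ y hy hxy
      refine ⟨hy, ?_⟩
      rcases hdich x y hxy with h' | ⟨h1, _, _⟩
      · rw [← h', hxc]
      · rw [hxc] at h1
        rw [h1] at hx
        exact absurd hx hc)
    exact (this hy).2
  have hmeet : ∀ u, ∃ k, bl k ∈ φ u := by
    intro u
    by_contra hcon
    push Not at hcon
    obtain ⟨z, hz⟩ := (hφ.1 u).1
    set c := gate z with hcdef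
    -- R = the branch set containing bl c
    have hR := hM {w | bl c ∈ φ w} (by
      intro v hv w hw
      exact hφ.2.1 v w _ hv hw) {w | bl c ∉ φ w ∧ ∃ z ∈ φ w, gate z = c} (by
      rintro w ⟨hw, _⟩ hw'
      exact hw hw') ⟨u, hcon c, z, hz, rfl⟩ (by
      rintro v ⟨hv, z, hz, hzc⟩ w hw hvw
      refine ⟨hw, ?_⟩
      obtain ⟨x, hx, y, hy, hxy⟩ := hφ.2.2 v w hvw
      have hxc := hstay v c hv z hz hzc x hx
      refine ⟨y, hy, ?_⟩
      rcases hdich x y hxy with h' | ⟨h1, _, _⟩
      · rw [← h', hxc]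
      · rw [hxc] at h1
        rw [h1] at hx
        exact absurd hx hv)
    by_cases ha : bl c ∈ φ a
    · have hb : bl c ∉ φ b := by
        intro hb
        exact hab.ne (hφ.2.1 _ _ _ ha hb)
      obtain ⟨_, z', hz', hzc'⟩ := hR hb
      have := hstay b c hb z' hz' hzc' _ hjb
      rw [gate_bl] at this
      rw [this] at hjb
      exact hb hjb
    · obtain ⟨_, z', hz', hzc'⟩ := hR ha
      have := hstay a c ha z' hz' hzc' _ hia
      rw [gate_bl] at this
      rw [this] at hia
      exact ha hia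
  have himg : ∀ u, ∀ z ∈ φ u, bl (gate z) ∈ φ u := by
    intro u z hz
    by_contra hcon
    obtain ⟨k, hk⟩ := hmeet u
    have := hstay u _ hcon z hz rfl _ hk
    rw [gate_bl] at this
    rw [this] at hk
    exact hcon hk
  refine ⟨fun u => gate '' φ u, ?_, ?_, ?_⟩
  · intro u
    refine (hφ.1 u).image gate ?_
    intro x _ y _ hxy
    rcases hdich x y hxy with h' | ⟨_, _, h'⟩
    · exact Or.inl h'
    · exact Or.inr h'
  · rintro v w _ ⟨y, hy, rfl⟩ ⟨z, hz, hzy⟩
    have h1 := himg v y hy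
    have h2 := himg w z hz
    have : gate z = gate y := hzy
    rw [this] at h2
    exact hφ.2.1 v w _ h1 h2
  · intro v w hvw
    obtain ⟨x, hx, y, hy, hxy⟩ := hφ.2.2 v w hvw
    refine ⟨gate x, ⟨x, hx, rfl⟩, gate y, ⟨y, hy, rfl⟩, ?_⟩
    rcases hdich x y hxy with h' | ⟨_, _, h'⟩
    · exfalso
      have h1 := himg v x hx
      have h2 := himg w y hy
      rw [← h'] at h2
      exact hvw.ne (hφ.2.1 v w _ h1 h2)
    · exact h'

/-- Double cones stay connected after deleting at most one vertex. -/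
theorem cone_cone_conn {U : Type*} (P : SimpleGraph U) (R : Set (Option (Option U)))
    (hR : R.Subsingleton) (A : Set (Option (Option U))) (hA : A ⊆ Rᶜ) (hne : A.Nonempty)
    (hcl : ∀ a ∈ A, ∀ b ∈ Rᶜ, (cone (cone P)).Adj a b → b ∈ A) : Rᶜ ⊆ A := by
  obtain ⟨x, hx⟩ := hne
  intro y hy
  by_cases h0 : (none : Option (Option U)) ∈ R
  · have h1 : ∀ z ∈ Rᶜ, z ≠ none := by
      rintro z hz rfl
      exact hz h0
    have h2 : (some none : Option (Option U)) ∈ Rᶜ := by
      intro h2
      exact absurd (hR h0 h2) (by simp)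
    have h3 : (some none : Option (Option U)) ∈ A := by
      rcases x with _ | (_ | x)
      · exact absurd rfl (h1 _ (hA hx))
      · exact hx
      · exact hcl _ hx _ h2 trivial
    rcases y with _ | (_ | y)
    · exact absurd rfl (h1 _ hy)
    · exact h3
    · exact hcl _ h3 _ hy trivial
  · have h3 : (none : Option (Option U)) ∈ A := by
      rcases x with _ | x
      · exact hx
      · exact hcl _ hx _ h0 trivial
    rcases y with _ | y
    · exact h3
    · exact hcl _ h3 _ hy trivial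

/-- Order reflection. -/
theorem reflect {W : Type*} {G : SimpleGraph V} {G' : SimpleGraph W}
    (h : IsMinor (cay (gens (cone (pad (cone G))))) (cay (gens (cone (pad (cone G')))))) :
    IsMinor G G' := by
  by_cases hV : Nonempty V
  · -- the double cone is a subgraph of the Cayley graph
    have h1 : IsMinor (cone (cone G)) (cay (gens (cone (pad (cone G'))))) := by
      rw [isMinor_iff] at h ⊢
      obtain ⟨φ, hφ⟩ := h
      refine ⟨_, hφ.comp (fun o : Option (Option V) => bl (o.map Sum.inl)) ?_ ?_⟩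
      · intro x y hxy
        exact Option.map_injective Sum.inl_injective (bl_injective hxy)
      · intro x y hxy
        rw [cay_adj gens_isGen]
        refine ⟨x.map Sum.inl, y.map Sum.inl, ?_, rfl⟩
        rcases x with _ | x <;> rcases y with _ | y
        · exact hxy
        · trivial
        · trivial
        · exact hxy
    have h2 := capture gens_isGen (M := cone (cone G)) (cone_cone_conn G)
      (a := none) (b := some none) trivial h1
    have h3 := minor_of_cone_minor h2
    have h4 : IsMinor (cone G) (cone G') := by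
      refine minor_of_minor_pad ?_ h3
      rintro (_ | v)
      · obtain ⟨v⟩ := hV
        exact ⟨some v, trivial⟩
      · exact ⟨none, trivial⟩
    exact minor_of_cone_minor h4
  · rw [isMinor_iff]
    exact ⟨fun _ => ∅, fun v => absurd ⟨v⟩ hV, fun v => absurd ⟨v⟩ hV, fun v => absurd ⟨v⟩ hV⟩

/-- Order preservation. -/
theorem preserve {W : Type*} {H : SimpleGraph V} {H' : SimpleGraph W}
    (h : IsMinor H H') : IsMinor (cay (gens (cone H))) (cay (gens (cone H'))) := by
  classical
  rw [isMinor_iff] at h ⊢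
  obtain ⟨ψ, hψ⟩ := h
  choose ρ hρ using fun v => (hψ.1 v).1
  set τ : FreeGroup W →* FreeGroup V :=
    FreeGroup.lift (fun p => if h : ∃ v, p ∈ ψ v then FreeGroup.of h.choose else 1) with hτ
  have hτof : ∀ v, ∀ p ∈ ψ v, τ (FreeGroup.of p) = FreeGroup.of v := by
    intro v p hp
    have hex : ∃ v, p ∈ ψ v := ⟨v, hp⟩
    rw [hτ, FreeGroup.lift_apply_of, dif_pos hex]
    rw [hψ.2.1 _ _ _ hex.choose_spec hp]
  set θ : FreeGroup V →* FreeGroup W := FreeGroup.map ρ with hθ
  have hτθ : ∀ g, τ (θ g) = g := by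
    intro g
    have : τ.comp θ = MonoidHom.id _ := by
      ext v
      simp only [MonoidHom.comp_apply, MonoidHom.id_apply, hθ, FreeGroup.map.of]
      exact hτof v _ (hρ v)
    exact DFunLike.congr_fun this g
  set Wv : V → Set (FreeGroup W) := fun v =>
    (fun p => (FreeGroup.of (ρ v))⁻¹ * FreeGroup.of p) '' ψ v with hWv
  set W0 : Set (FreeGroup W) := {x | x = 1 ∨ ∃ v, x ∈ Wv v} with hW0
  have h1v : ∀ v, (1 : FreeGroup W) ∈ Wv v := fun v => ⟨ρ v, hρ v, by simp⟩
  have hτW : ∀ x ∈ W0, τ x = 1 := by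
    rintro x (rfl | ⟨v, p, hp, rfl⟩)
    · simp
    · simp only [map_mul, map_inv]
      rw [hτof v _ (hρ v), hτof v _ hp]
      simp
  have hconnv : ∀ v, Conn (cay (gens (cone H'))) (Wv v) := by
    intro v
    refine (hψ.1 v).image _ ?_
    intro p _ q _ hpq
    right
    rw [cay_adj gens_isGen]
    refine ⟨some p, some q, hpq, ?_⟩
    simp only [bl]
    group
  have hconn : Conn (cay (gens (cone H'))) W0 := by
    refine ⟨⟨1, Or.inl rfl⟩, ?_⟩
    intro A hA hne hcl
    have hone : (1 : FreeGroup W) ∈ A := by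
      obtain ⟨x, hx⟩ := hne
      rcases hA hx with rfl | ⟨v, hv⟩
      · exact hx
      · have := (hconnv v).2 (A ∩ Wv v) Set.inter_subset_right ⟨x, hx, hv⟩ (by
          rintro a ⟨ha, hav⟩ b hb hadj
          exact ⟨hcl a ha b (Or.inr ⟨v, hb⟩) hadj, hb⟩)
        exact (this (h1v v)).1
    rintro y (rfl | ⟨v, hv⟩)
    · exact hone
    · have := (hconnv v).2 (A ∩ Wv v) Set.inter_subset_right ⟨1, hone, h1v v⟩ (by
          rintro a ⟨ha, hav⟩ b hb hadj
          exact ⟨hcl a ha b (Or.inr ⟨v, hb⟩) hadj, hb⟩)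
      exact (this hv).1
  have hsymm : ∀ g g' : FreeGroup V, ∀ i j, (cone H).Adj i j → g' = g * ((bl i)⁻¹ * bl j) →
      ∃ a ∈ (fun x => θ g * x) '' W0, ∃ b ∈ (fun x => θ g' * x) '' W0,
        (cay (gens (cone H'))).Adj a b := by
    intro g g' i j hij hg'
    subst hg'
    rcases i with _ | u <;> rcases j with _ | v
    · exact absurd hij (fun h => h)
    · refine ⟨θ g * 1, ⟨1, Or.inl rfl, rfl⟩, θ (g * ((bl none)⁻¹ * bl (some v))) * 1,
        ⟨1, Or.inl rfl, rfl⟩, ?_⟩
      rw [cay_adj gens_isGen]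
      refine ⟨none, some (ρ v), trivial, ?_⟩
      simp only [bl, map_mul, hθ, FreeGroup.map.of, map_inv, map_one]
      group
    · refine ⟨θ g * 1, ⟨1, Or.inl rfl, rfl⟩, θ (g * ((bl (some u))⁻¹ * bl none)) * 1,
        ⟨1, Or.inl rfl, rfl⟩, ?_⟩
      rw [cay_adj gens_isGen]
      refine ⟨some (ρ u), none, trivial, ?_⟩
      simp only [bl, map_mul, hθ, FreeGroup.map.of, map_inv, map_one]
      group
    · obtain ⟨p, hp, q, hq, hpq⟩ := hψ.2.2 u v hij
      refine ⟨θ g * ((FreeGroup.of (ρ u))⁻¹ * FreeGroup.of p), ⟨_, Or.inr ⟨u, p, hp, rfl⟩, rfl⟩,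
        θ (g * ((bl (some u))⁻¹ * bl (some v))) * ((FreeGroup.of (ρ v))⁻¹ * FreeGroup.of q),
        ⟨_, Or.inr ⟨v, q, hq, rfl⟩, rfl⟩, ?_⟩
      rw [cay_adj gens_isGen]
      refine ⟨some p, some q, hpq, ?_⟩
      simp only [bl, map_mul, hθ, FreeGroup.map.of, map_inv]
      group
  refine ⟨fun g => (fun x => θ g * x) '' W0, ?_, ?_, ?_⟩
  · intro g
    refine hconn.image _ ?_
    intro x _ y _ hxy
    right
    rw [cay_adj gens_isGen] at hxy ⊢
    have : (θ g * x)⁻¹ * (θ g * y) = x⁻¹ * y := by group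
    rw [this]; exact hxy
  · rintro g g' x ⟨y, hy, rfl⟩ ⟨z, hz, hzy⟩
    have := congrArg τ hzy
    simp only [map_mul, hτθ, hτW y hy, hτW z hz, mul_one] at this
    exact this.symm
  · intro g g' hgg
    rw [cay_adj gens_isGen] at hgg
    obtain ⟨i, j, hij, h⟩ := hgg
    exact hsymm g g' i j hij (by rw [← h]; group)

end free


section transport

theorem isGen_congr {Γ Δ : Type*} [Group Γ] [Group Δ] (e : Γ ≃* Δ) {S : Set Γ} (hS : IsGen S) :
    IsGen (e.symm ⁻¹' S) := by
  refine ⟨?_, ?_, ?_⟩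
  · have h1 : e.symm ⁻¹' S = e.toMonoidHom '' S := by
      ext x
      constructor
      · intro hx
        exact ⟨e.symm x, hx, by simp⟩
      · rintro ⟨y, hy, rfl⟩
        simpa using hy
    rw [h1, ← MonoidHom.map_closure, hS.1, ← MonoidHom.range_eq_map, MonoidHom.range_eq_top]
    exact e.surjective
  · intro s hs
    have := hS.2.1 _ hs
    simpa using this
  · intro h
    apply hS.2.2
    simpa using h

theorem cay_congr {Γ Δ : Type*} [Group Γ] [Group Δ] (e : Γ ≃* Δ) {S : Set Γ} (hS : IsGen S)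
    (a b : Γ) : (cay S).Adj a b ↔ (cay (e.symm ⁻¹' S)).Adj (e a) (e b) := by
  rw [cay_adj hS, cay_adj (isGen_congr e hS)]
  simp

theorem cay_congr' {Γ Δ : Type*} [Group Γ] [Group Δ] (e : Γ ≃* Δ) {S : Set Γ} (hS : IsGen S)
    (a b : Δ) : (cay (e.symm ⁻¹' S)).Adj a b ↔ (cay S).Adj (e.symm a) (e.symm b) := by
  rw [cay_adj hS, cay_adj (isGen_congr e hS)]
  simp

end transport

/-- Main theorem. (1) There is an order embedding of the minor quasi-order of all countable graphs
into the minor quasi-order of the Cayley graphs of the free group of countably infinite rank.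
(2) Hence the following are equivalent: countable graphs are well-quasi-ordered under minors
(Thomas's conjecture); countable Cayley graphs are (the question Q1); Cayley graphs of the single
group `FreeGroup ℕ` are. -/
theorem result :
    (∃ T : ∀ (V : Type) [Countable V], SimpleGraph V → Set (FreeGroup ℕ),
      (∀ (V : Type) [Countable V] (G : SimpleGraph V), IsGen (T V G)) ∧
      (∀ (V W : Type) [Countable V] [Countable W] (G : SimpleGraph V) (H : SimpleGraph W),
        IsMinor (cay (T V G)) (cay (T W H)) ↔ IsMinor G H)) ∧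
    List.TFAE [
      ∀ (V : ℕ → Type) [∀ n, Countable (V n)] (G : ∀ n, SimpleGraph (V n)),
        ∃ i j, i < j ∧ IsMinor (G i) (G j),
      ∀ (Γ : ℕ → Type) [∀ n, Group (Γ n)] [∀ n, Countable (Γ n)] (S : ∀ n, Set (Γ n)),
        (∀ n, IsGen (S n)) → ∃ i j, i < j ∧ IsMinor (cay (S i)) (cay (S j)),
      ∀ S : ℕ → Set (FreeGroup ℕ), (∀ n, IsGen (S n)) →
        ∃ i j, i < j ∧ IsMinor (cay (S i)) (cay (S j))] := by
  have hT : ∃ T : ∀ (V : Type) [Countable V], SimpleGraph V → Set (FreeGroup ℕ),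
      (∀ (V : Type) [Countable V] (G : SimpleGraph V), IsGen (T V G)) ∧
      (∀ (V W : Type) [Countable V] [Countable W] (G : SimpleGraph V) (H : SimpleGraph W),
        IsMinor (cay (T V G)) (cay (T W H)) ↔ IsMinor G H) := by
    have he : ∀ (V : Type) [Countable V], Nonempty ((Option V ⊕ ℕ) ≃ ℕ) := by
      intro V _
      exact nonempty_equiv_of_countable
    have e : ∀ (V : Type) [Countable V], (Option V ⊕ ℕ) ≃ ℕ := fun V _ => (he V).some
    refine ⟨fun V _ G => (FreeGroup.freeGroupCongr (e V)).symm ⁻¹'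
      gens (cone (pad (cone G))), ?_, ?_⟩
    · intro V _ G
      exact isGen_congr _ gens_isGen
    · intro V W _ _ G H
      constructor
      · intro h
        refine reflect (h.congr (FreeGroup.freeGroupCongr (e V)).toEquiv ?_
          (FreeGroup.freeGroupCongr (e W)).symm.toEquiv ?_)
        · intro a b hab
          exact (cay_congr _ gens_isGen a b).1 hab
        · intro a b hab
          exact (cay_congr' (FreeGroup.freeGroupCongr (e W)) gens_isGen a b).1 hab
      · intro h
        refine (preserve (pad_mono (cone_mono h))).congr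
          (FreeGroup.freeGroupCongr (e V)).symm.toEquiv ?_
          (FreeGroup.freeGroupCongr (e W)).toEquiv ?_
        · intro a b hab
          exact (cay_congr' (FreeGroup.freeGroupCongr (e V)) gens_isGen a b).1 hab
        · intro a b hab
          exact (cay_congr _ gens_isGen a b).1 hab
  refine ⟨hT, ?_⟩
  tfae_have 1 → 2 := by
    intro h Γ _ _ S _
    exact h Γ (fun n => cay (S n))
  tfae_have 2 → 3 := by
    intro h S hS
    exact h (fun _ => FreeGroup ℕ) S hS
  tfae_have 3 → 1 := by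
    intro h V _ G
    obtain ⟨T, hT1, hT2⟩ := hT
    obtain ⟨i, j, hij, hm⟩ := h (fun n => T (V n) (G n)) (fun n => hT1 _ _)
    exact ⟨i, j, hij, (hT2 _ _ _ _).1 hm⟩
  tfae_finish

end Pool.Agent.Results.MP_266b34_co.ThomasEquivalence
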